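import Mathlib
import Pool.Agent.H493.AhlAvg

set_option autoImplicit false

namespace Pool.Agent.Results.MP_da4a48_co.LargeIntersection

open Finset Pool.Agent.H493.Ahl

theorem choose_step {n δ : ℕ} (h : n + 1 ≤ 2 * δ) :
    2 * n.choose δ ≤ (n + 1).choose δ := by
  have h1 : (n + 1).choose δ * (n + 1 - δ) = n.choose δ * (n + 1) := by
    rcases Nat.lt_or_ge n δ with hlt | hge
    · rcases Nat.lt_or_ge (n + 1) δ with h2 | h2
      · rw [Nat.choose_eq_zero_of_lt h2, Nat.choose_eq_zero_of_lt hlt]; simp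
      · have : δ = n + 1 := by omega
        subst this
        simp
    · have := Nat.choose_mul_succ_eq n δ
      linarith
  rcases Nat.lt_or_ge n δ with hlt | hge
  · rw [Nat.choose_eq_zero_of_lt hlt]; simp
  · have hpos : 0 < n + 1 - δ := by omega
    refine Nat.le_of_mul_le_mul_right ?_ hpos
    rw [h1]
    have : 2 * (n + 1 - δ) ≤ n + 1 := by omega
    calc 2 * n.choose δ * (n + 1 - δ) = n.choose δ * (2 * (n + 1 - δ)) := by ring
      _ ≤ n.choose δ * (n + 1) := Nat.mul_le_mul_left _ this

theorem pow_choose_le {n δ : ℕ} (h : n ≤ 2 * δ) (m : ℕ) (hm : m ≤ n) :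
    2 ^ m * (n - m).choose δ ≤ n.choose δ := by
  induction m with
  | zero => simp
  | succ m ih =>
    have h1 := ih (by omega)
    have h2 := choose_step (n := n - (m + 1)) (δ := δ) (by omega)
    have h3 : n - (m + 1) + 1 = n - m := by omega
    rw [h3] at h2
    calc 2 ^ (m + 1) * (n - (m + 1)).choose δ = 2 ^ m * (2 * (n - (m + 1)).choose δ) := by ring
      _ ≤ 2 ^ m * (n - m).choose δ := Nat.mul_le_mul_left _ h2
      _ ≤ n.choose δ := h1

/-- **Ahlswede's conjecture for `δ ≥ 2n/3`.** If `δ ≤ n` and `2n ≤ 3δ`, then the largest value of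
`|A| |B|` over families `A`, `B` of subsets of an `n`-set with `|a ∩ b| = δ` for all `a ∈ A`,
`b ∈ B` is `max_{0 ≤ m ≤ n - δ} 2^m C(n - m, δ)`, and this maximum is `C(n, δ)`. -/
theorem result :
    ∀ n δ : ℕ, δ ≤ n → 2 * n ≤ 3 * δ →
      IsGreatest
        {p : ℕ | ∃ A B : Finset (Finset (Fin n)),
            (∀ a ∈ A, ∀ b ∈ B, (a ∩ b).card = δ) ∧ p = A.card * B.card}
        ((Finset.range (n - δ + 1)).sup (fun m => 2 ^ m * Nat.choose (n - m) δ)) ∧
      (Finset.range (n - δ + 1)).sup (fun m => 2 ^ m * Nat.choose (n - m) δ) =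
        Nat.choose n δ := by
  intro n δ hδ h3
  have hsup : (Finset.range (n - δ + 1)).sup (fun m => 2 ^ m * Nat.choose (n - m) δ) =
      Nat.choose n δ := by
    refine le_antisymm (Finset.sup_le fun m hm => ?_) ?_
    · have := Finset.mem_range.1 hm
      exact pow_choose_le (by omega) m (by omega)
    · refine le_trans ?_ (Finset.le_sup (f := fun m => 2 ^ m * Nat.choose (n - m) δ)
        (Finset.mem_range.2 (Nat.succ_pos _) : 0 ∈ Finset.range (n - δ + 1)))
      simp
  refine ⟨?_, hsup⟩
  rw [hsup]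
  constructor
  · refine ⟨{Finset.univ}, (Finset.univ : Finset (Fin n)).powersetCard δ, ?_, ?_⟩
    · intro a ha b hb
      rw [Finset.mem_singleton.1 ha, Finset.univ_inter]
      exact (Finset.mem_powersetCard.1 hb).2
    · simp [Finset.card_powersetCard]
  · rintro p ⟨A, B, hAB, rfl⟩
    have hk : 3 * (n - δ) ≤ n := by omega
    have key := union_bound (n := n) (k := n - δ) hk (A.image compl) (B.image compl) (by
      intro X hX Y hY
      obtain ⟨a, ha, rfl⟩ := Finset.mem_image.1 hX
      obtain ⟨b, hb, rfl⟩ := Finset.mem_image.1 hY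
      rw [← Finset.compl_inter, Finset.card_compl, hAB a ha b hb, Fintype.card_fin])
    rw [Finset.card_image_of_injective _ compl_injective,
      Finset.card_image_of_injective _ compl_injective, Nat.choose_symm hδ] at key
    exact key

end Pool.Agent.Results.MP_da4a48_co.LargeIntersection
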